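import Pool.Agent.Helper20.QP.St1

/-!
# Project QD (MP_d112a4_gt), PART P: module MET (the hyperbolic metric of the disc)
-/

set_option autoImplicit false

open Filter Topology Matrix Set Metric MeasureTheory
open scoped ComplexConjugate ENNReal

namespace Pool.Agent.Helper52.QP

open Pool.Agent.Helper35.PM Pool.Agent.Helper20.QD Pool.Agent.Helper20.QP

private lemma su_data {A : SL} (hA : IsSU A) :
    (A : Mat) 0 0 * conj ((A : Mat) 0 0) - (A : Mat) 0 1 * conj ((A : Mat) 0 1) = 1 ∧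
    ‖(A : Mat) 0 0‖ ^ 2 - ‖(A : Mat) 0 1‖ ^ 2 = 1 := by
  have hdet : (A : Mat) 0 0 * (A : Mat) 1 1 - (A : Mat) 0 1 * (A : Mat) 1 0 = 1 := by
    have := A.det_coe
    rw [Matrix.det_fin_two] at this
    exact this
  rw [hA.1, hA.2] at hdet
  refine ⟨hdet, ?_⟩
  rw [Complex.mul_conj, Complex.mul_conj] at hdet
  rw [← Complex.normSq_eq_norm_sq, ← Complex.normSq_eq_norm_sq]
  exact_mod_cast hdet

private lemma D_sq {z : ℂ} (hz : z ∈ D) : ‖z‖ ^ 2 < 1 := by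
  have := mem_ball_zero_iff.1 hz
  nlinarith [norm_nonneg z]

private lemma den_ne {A : SL} (hA : IsSU A) {z : ℂ} (hz : z ∈ D) :
    conj ((A : Mat) 0 1) * z + conj ((A : Mat) 0 0) ≠ 0 := by
  intro h0
  have h1 : conj ((A : Mat) 0 0) = -(conj ((A : Mat) 0 1) * z) := by linear_combination h0
  have h2 : ‖(A : Mat) 0 0‖ = ‖(A : Mat) 0 1‖ * ‖z‖ := by
    have := congrArg norm h1
    rwa [norm_neg, norm_mul, RCLike.norm_conj, RCLike.norm_conj] at this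
  have h3 := D_sq hz
  have h := (su_data hA).2
  rw [h2, mul_pow] at h
  nlinarith [sq_nonneg ‖(A : Mat) 0 1‖]

private lemma mob_eq {A : SL} (hA : IsSU A) (z : ℂ) : mob A z =
    ((A : Mat) 0 0 * z + (A : Mat) 0 1) / (conj ((A : Mat) 0 1) * z + conj ((A : Mat) 0 0)) := by
  unfold mob
  rw [hA.1, hA.2]

private lemma nsq (z : ℂ) : ‖z‖ ^ 2 = z.re ^ 2 + z.im ^ 2 := by
  rw [← Complex.normSq_eq_norm_sq, Complex.normSq_apply]; ring

private lemma key_norm (a b z : ℂ) : ‖conj b * z + conj a‖ ^ 2 - ‖a * z + b‖ ^ 2 =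
    (‖a‖ ^ 2 - ‖b‖ ^ 2) * (1 - ‖z‖ ^ 2) := by
  simp only [nsq, Complex.add_re, Complex.add_im, Complex.mul_re, Complex.mul_im,
    Complex.conj_re, Complex.conj_im]
  ring

private lemma one_sub_mob {A : SL} (hA : IsSU A) {z : ℂ} (hz : z ∈ D) :
    1 - ‖mob A z‖ ^ 2 = (1 - ‖z‖ ^ 2) / ‖conj ((A : Mat) 0 1) * z + conj ((A : Mat) 0 0)‖ ^ 2 := by
  have hd := den_ne hA hz
  have hd2 : ‖conj ((A : Mat) 0 1) * z + conj ((A : Mat) 0 0)‖ ^ 2 ≠ 0 := by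
    have := norm_pos_iff.2 hd
    positivity
  have h1 := key_norm ((A : Mat) 0 0) ((A : Mat) 0 1) z
  rw [(su_data hA).2, one_mul] at h1
  rw [mob_eq hA, norm_div, div_pow, ← h1, eq_div_iff hd2, sub_mul, one_mul,
    div_mul_cancel₀ _ hd2]

private lemma mob_sub {A : SL} (hA : IsSU A) {z w : ℂ} (hz : z ∈ D) (hw : w ∈ D) :
    mob A z - mob A w = (z - w) / ((conj ((A : Mat) 0 1) * z + conj ((A : Mat) 0 0)) *
      (conj ((A : Mat) 0 1) * w + conj ((A : Mat) 0 0))) := by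
  have hd := den_ne hA hz
  have hd' := den_ne hA hw
  have h := (su_data hA).1
  rw [mob_eq hA, mob_eq hA, div_sub_div _ _ hd hd']
  congr 1
  linear_combination (z - w) * h

private lemma dl_mob {A : SL} (hA : IsSU A) {z w : ℂ} (hz : z ∈ D) (hw : w ∈ D) :
    dl (mob A z) (mob A w) = dl z w := by
  have hd := norm_pos_iff.2 (den_ne hA hz)
  have hd' := norm_pos_iff.2 (den_ne hA hw)
  have h1 := D_sq hz
  have h2 := D_sq hw
  have h3 : 1 - ‖z‖ ^ 2 ≠ 0 := by linarith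
  have h4 : 1 - ‖w‖ ^ 2 ≠ 0 := by linarith
  unfold dl
  rw [one_sub_mob hA hz, one_sub_mob hA hw, mob_sub hA hz hw, norm_div, norm_mul, div_pow, mul_pow]
  generalize ‖conj ((A : Mat) 0 1) * z + conj ((A : Mat) 0 0)‖ = p at hd ⊢
  generalize ‖conj ((A : Mat) 0 1) * w + conj ((A : Mat) 0 0)‖ = q at hd' ⊢
  have hp := hd.ne'
  have hq := hd'.ne'
  field_simp

private lemma dl_nonneg {z w : ℂ} (hz : z ∈ D) (hw : w ∈ D) : 0 ≤ dl z w := by
  have h1 := D_sq hz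
  have h2 := D_sq hw
  unfold dl
  exact div_nonneg (sq_nonneg _) (mul_nonneg (by linarith) (by linarith))

private lemma dl_comm (z w : ℂ) : dl z w = dl w z := by
  unfold dl
  rw [norm_sub_rev, mul_comm (1 - ‖z‖ ^ 2)]

private lemma hd_comm (z w : ℂ) : hd z w = hd w z := by
  unfold hd
  rw [dl_comm]

private lemma hd_nonneg (z w : ℂ) : 0 ≤ hd z w := by
  unfold hd
  have : 0 ≤ Real.arsinh (Real.sqrt (dl z w)) := Real.arsinh_nonneg_iff.2 (Real.sqrt_nonneg _)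
  positivity

private lemma sinh_hd {z w : ℂ} (hz : z ∈ D) (hw : w ∈ D) : Real.sinh (hd z w / 2) ^ 2 = dl z w := by
  unfold hd
  rw [mul_div_cancel_left₀ _ (two_ne_zero), Real.sinh_arsinh, Real.sq_sqrt (dl_nonneg hz hw)]

private lemma hd_le {z w : ℂ} {s : ℝ} (hs : 0 ≤ s) (h : dl z w ≤ Real.sinh (s / 2) ^ 2) :
    hd z w ≤ s := by
  have h0 : 0 ≤ Real.sinh (s / 2) := Real.sinh_nonneg_iff.2 (by linarith)
  have h1 : Real.sqrt (dl z w) ≤ Real.sinh (s / 2) := Real.sqrt_le_iff.2 ⟨h0, h⟩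
  have h2 := Real.arsinh_le_arsinh.2 h1
  rw [Real.arsinh_sinh] at h2
  unfold hd
  linarith

private lemma hd_eq {z w : ℂ} {s : ℝ} (hs : 0 ≤ s) (h : dl z w = Real.sinh (s / 2) ^ 2) :
    hd z w = s := by
  have h0 : 0 ≤ Real.sinh (s / 2) := Real.sinh_nonneg_iff.2 (by linarith)
  unfold hd
  rw [h, Real.sqrt_sq h0, Real.arsinh_sinh]
  ring

private lemma hd_mob {A : SL} (hA : IsSU A) {z w : ℂ} (hz : z ∈ D) (hw : w ∈ D) :
    hd (mob A z) (mob A w) = hd z w := by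
  unfold hd
  rw [dl_mob hA hz hw]

private lemma dl_zero (z : ℂ) : dl 0 z = ‖z‖ ^ 2 / (1 - ‖z‖ ^ 2) := by
  unfold dl
  simp

/-- the hyperbolic functions of half the distance to the origin -/
private lemma half {z : ℂ} (hz : z ∈ D) : Real.cosh (hd 0 z / 2) ^ 2 = 1 / (1 - ‖z‖ ^ 2) ∧
    Real.sinh (hd 0 z / 2) = ‖z‖ * Real.cosh (hd 0 z / 2) := by
  have h0 : (0 : ℂ) ∈ D := by simp
  have h1 := D_sq hz
  have h2 : 1 - ‖z‖ ^ 2 ≠ 0 := by linarith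
  have h3 := sinh_hd h0 hz
  rw [dl_zero] at h3
  have h4 : Real.cosh (hd 0 z / 2) ^ 2 = 1 / (1 - ‖z‖ ^ 2) := by
    rw [Real.cosh_sq, h3]
    field_simp
    ring
  refine ⟨h4, ?_⟩
  have h5 : 0 ≤ Real.sinh (hd 0 z / 2) :=
    Real.sinh_nonneg_iff.2 (by have := hd_nonneg 0 z; linarith)
  have h6 : 0 ≤ ‖z‖ * Real.cosh (hd 0 z / 2) :=
    mul_nonneg (norm_nonneg _) (Real.cosh_pos _).le
  refine (pow_left_inj₀ h5 h6 two_ne_zero).1 ?_
  rw [mul_pow, h4, h3]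
  ring

private lemma tri0 {z w : ℂ} (hz : z ∈ D) (hw : w ∈ D) : hd z w ≤ hd 0 z + hd 0 w := by
  apply hd_le (add_nonneg (hd_nonneg _ _) (hd_nonneg _ _))
  obtain ⟨c1, s1⟩ := half hz
  obtain ⟨c2, s2⟩ := half hw
  have h1 := D_sq hz
  have h2 := D_sq hw
  rw [add_div, Real.sinh_add, s1, s2]
  have e : ‖z‖ * Real.cosh (hd 0 z / 2) * Real.cosh (hd 0 w / 2) +
      Real.cosh (hd 0 z / 2) * (‖w‖ * Real.cosh (hd 0 w / 2)) =
      (‖z‖ + ‖w‖) * (Real.cosh (hd 0 z / 2) * Real.cosh (hd 0 w / 2)) := by ring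
  rw [e, mul_pow, mul_pow, c1, c2]
  unfold dl
  have h3 : ‖z - w‖ ^ 2 ≤ (‖z‖ + ‖w‖) ^ 2 :=
    pow_le_pow_left₀ (norm_nonneg _) (norm_sub_le _ _) 2
  have h4 : 0 < (1 - ‖z‖ ^ 2) * (1 - ‖w‖ ^ 2) := mul_pos (by linarith) (by linarith)
  have e2 : (‖z‖ + ‖w‖) ^ 2 * (1 / (1 - ‖z‖ ^ 2) * (1 / (1 - ‖w‖ ^ 2))) =
      (‖z‖ + ‖w‖) ^ 2 / ((1 - ‖z‖ ^ 2) * (1 - ‖w‖ ^ 2)) := by
    field_simp
  rw [e2]
  exact div_le_div_of_nonneg_right h3 h4.le

private lemma seg0 {w : ℂ} (hw : w ∈ D) {s : ℝ} (hs : 0 ≤ s) (hsw : s ≤ hd 0 w) :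
    ∃ u ∈ D, hd 0 u = s ∧ hd u w = hd 0 w - s := by
  have h0 : (0 : ℂ) ∈ D := by simp
  by_cases hw0 : w = 0
  · subst hw0
    have h1 : hd 0 (0 : ℂ) = 0 := hd_eq le_rfl (by simp [dl])
    rw [h1] at hsw ⊢
    have hs0 : s = 0 := le_antisymm hsw hs
    subst hs0
    exact ⟨0, h0, h1, by rw [h1, sub_zero]⟩
  · have hwn : ‖w‖ ≠ 0 := norm_ne_zero_iff.2 hw0
    have hwn0 : 0 < ‖w‖ := norm_pos_iff.2 hw0
    obtain ⟨c2, s2⟩ := half hw
    have h2 := D_sq hw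
    set c : ℝ := Real.cosh (s / 2) with hc
    set t : ℝ := Real.sinh (s / 2) / c with ht
    have hc0 : 0 < c := Real.cosh_pos _
    have hcs : c ^ 2 = Real.sinh (s / 2) ^ 2 + 1 := Real.cosh_sq _
    have ht0 : 0 ≤ t := div_nonneg (Real.sinh_nonneg_iff.2 (by linarith)) hc0.le
    have htc : t * c = Real.sinh (s / 2) := div_mul_cancel₀ _ hc0.ne'
    have ht1 : (1 - t ^ 2) * c ^ 2 = 1 := by
      have : (1 - t ^ 2) * c ^ 2 = c ^ 2 - (t * c) ^ 2 := by ring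
      rw [this, htc, hcs]
      ring
    have ht2 : 0 < 1 - t ^ 2 := by
      have h5 : 0 < c ^ 2 := by positivity
      by_contra hcon
      have h6 := mul_nonpos_of_nonpos_of_nonneg (not_lt.1 hcon) h5.le
      linarith
    have ht3 : 1 / (1 - t ^ 2) = c ^ 2 := by
      rw [div_eq_iff ht2.ne']
      linarith
    set u : ℂ := ((t / ‖w‖ : ℝ) : ℂ) * w with hu
    have hun : ‖u‖ = t := by
      rw [hu, norm_mul, Complex.norm_real, Real.norm_eq_abs, abs_of_nonneg (by positivity)]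
      field_simp
    have huD : u ∈ D := by
      rw [mem_ball_zero_iff, hun]
      nlinarith
    have huw : ‖u - w‖ ^ 2 = (‖w‖ - t) ^ 2 := by
      have e1 : u - w = (((t - ‖w‖) / ‖w‖ : ℝ) : ℂ) * w := by
        have hwc : ((‖w‖ : ℝ) : ℂ) ≠ 0 := by exact_mod_cast hwn
        rw [hu]
        push_cast
        field_simp
      rw [e1, norm_mul, Complex.norm_real, Real.norm_eq_abs, mul_pow, sq_abs]
      field_simp
      ring
    refine ⟨u, huD, ?_, ?_⟩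
    · apply hd_eq hs
      rw [dl_zero, hun, ← htc, mul_pow, ← ht3]
      ring
    · apply hd_eq (by linarith)
      rw [sub_div, Real.sinh_sub, s2, ← hc, ← htc]
      have e : ‖w‖ * Real.cosh (hd 0 w / 2) * c - Real.cosh (hd 0 w / 2) * (t * c) =
          (‖w‖ - t) * (Real.cosh (hd 0 w / 2) * c) := by ring
      rw [e, mul_pow, mul_pow, c2, ← ht3]
      unfold dl
      rw [hun, huw]
      have h7 : 1 - ‖w‖ ^ 2 ≠ 0 := by linarith
      have h8 : 1 - t ^ 2 ≠ 0 := ht2.ne'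
      field_simp

theorem hMET (hSUB : StSUB) : StMET := by
  obtain ⟨hS1, -, hS3, -, -, -⟩ := hSUB
  -- moving a point to the origin
  have hmove : ∀ u ∈ D, ∃ B : SL, IsSU B ∧ mob B 0 = u ∧ ∀ z ∈ D, ∃ z' ∈ D, mob B z' = z := by
    intro u hu
    obtain ⟨B, hB, hBu⟩ := hS3 u hu
    refine ⟨B, hB, hBu, fun z hz => ?_⟩
    obtain ⟨z', hz', hzz⟩ := (hS1 B hB).2.2.1.surjOn hz
    exact ⟨z', hz', hzz⟩
  have h0 : (0 : ℂ) ∈ D := by simp
  refine ⟨fun A z w hA hz hw => dl_mob hA hz hw, fun z w u hz hw hu => ?_,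
    fun z w s hz hw hs hsw => ?_, fun z w s hz hw hs hs1 => ?_, fun A hA => ?_,
    fun z b hz hb => ?_, ?_⟩
  · refine ⟨hd_nonneg z w, sinh_hd hz hw, hd_comm z w, dl_comm z w, ?_, ?_⟩
    · constructor
      · intro h
        have h1 := sinh_hd hz hw
        rw [h, zero_div, Real.sinh_zero] at h1
        have h2 : dl z w = 0 := by
          rw [← h1]
          norm_num
        unfold dl at h2
        have h3 := D_sq hz
        have h4 := D_sq hw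
        rcases div_eq_zero_iff.1 h2 with h5 | h5
        · have h6 : ‖z - w‖ = 0 := by
            exact pow_eq_zero_iff two_ne_zero |>.1 h5
          exact sub_eq_zero.1 (norm_eq_zero.1 h6)
        · exfalso
          have : 0 < (1 - ‖z‖ ^ 2) * (1 - ‖w‖ ^ 2) := mul_pos (by linarith) (by linarith)
          linarith
      · rintro rfl
        exact hd_eq le_rfl (by simp [dl])
    · obtain ⟨B, hB, hBu, hBs⟩ := hmove u hu
      obtain ⟨z', hz', rfl⟩ := hBs z hz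
      obtain ⟨w', hw', rfl⟩ := hBs w hw
      rw [← hBu, hd_mob hB hz' hw', hd_mob hB hz' h0, hd_mob hB h0 hw', hd_comm z' 0]
      exact tri0 hz' hw'
  · obtain ⟨B, hB, hBz, hBs⟩ := hmove z hz
    obtain ⟨w', hw', rfl⟩ := hBs w hw
    rw [← hBz, hd_mob hB h0 hw'] at hsw
    obtain ⟨u', hu', h1, h2⟩ := seg0 hw' hs hsw
    refine ⟨mob B u', (hS1 B hB).2.2.1.mapsTo hu', ?_, ?_⟩
    · rw [← hBz, hd_mob hB h0 hu', h1]
    · rw [← hBz, hd_mob hB hu' hw', hd_mob hB h0 hw', h2]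
  · have h1 := D_sq hz
    have h2 := D_sq hw
    have e1 : ‖(s : ℂ) * z - s * w‖ ^ 2 = s ^ 2 * ‖z - w‖ ^ 2 := by
      rw [← mul_sub, norm_mul, Complex.norm_real, Real.norm_eq_abs, abs_of_nonneg hs, mul_pow]
    have e2 : ‖(s : ℂ) * z‖ ^ 2 = s ^ 2 * ‖z‖ ^ 2 := by
      rw [norm_mul, Complex.norm_real, Real.norm_eq_abs, abs_of_nonneg hs, mul_pow]
    have e3 : ‖(s : ℂ) * w‖ ^ 2 = s ^ 2 * ‖w‖ ^ 2 := by
      rw [norm_mul, Complex.norm_real, Real.norm_eq_abs, abs_of_nonneg hs, mul_pow]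
    unfold dl
    rw [e1, e2, e3]
    have key : ∀ x : ℝ, 0 ≤ x → x < 1 → s * (1 - x) ≤ 1 - s ^ 2 * x ∧ 0 < 1 - s ^ 2 * x := by
      intro x hx hx1
      have hs2 : s ^ 2 ≤ 1 := by nlinarith
      constructor
      · nlinarith [mul_nonneg (show 0 ≤ 1 - s by linarith) (show 0 ≤ 1 + s * x by positivity)]
      · nlinarith [mul_le_mul_of_nonneg_right hs2 hx]
    obtain ⟨k1, k2⟩ := key (‖z‖ ^ 2) (sq_nonneg _) h1
    obtain ⟨k3, k4⟩ := key (‖w‖ ^ 2) (sq_nonneg _) h2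
    rw [div_le_div_iff₀ (mul_pos k2 k4) (mul_pos (by linarith) (by linarith))]
    have h5 : (s * (1 - ‖z‖ ^ 2)) * (s * (1 - ‖w‖ ^ 2)) ≤
        (1 - s ^ 2 * ‖z‖ ^ 2) * (1 - s ^ 2 * ‖w‖ ^ 2) :=
      mul_le_mul k1 k3 (mul_nonneg hs (by linarith)) k2.le
    have h6 := mul_le_mul_of_nonneg_left h5 (sq_nonneg ‖z - w‖)
    linarith
  · obtain ⟨-, h1⟩ := su_data hA
    rw [dl_zero, mob_eq hA, mul_zero, mul_zero, zero_add, zero_add, norm_div, RCLike.norm_conj,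
      div_pow]
    have h2 : hs (A : Mat) = 2 * (‖(A : Mat) 0 0‖ ^ 2 + ‖(A : Mat) 0 1‖ ^ 2) := by
      unfold hs
      rw [Fin.sum_univ_two, Fin.sum_univ_two, Fin.sum_univ_two, hA.1, hA.2, RCLike.norm_conj,
        RCLike.norm_conj]
      ring
    rw [h2]
    have h3 : ‖(A : Mat) 0 0‖ ^ 2 = 1 + ‖(A : Mat) 0 1‖ ^ 2 := by linarith
    have h4 : (1 : ℝ) + ‖(A : Mat) 0 1‖ ^ 2 ≠ 0 := by positivity
    rw [h3]
    have h5 : 1 - ‖(A : Mat) 0 1‖ ^ 2 / (1 + ‖(A : Mat) 0 1‖ ^ 2) =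
        1 / (1 + ‖(A : Mat) 0 1‖ ^ 2) := by
      field_simp
      ring
    rw [h5]
    field_simp
    ring
  · have h1 := D_sq hz
    rw [dl_zero, div_le_iff₀ (by linarith), le_div_iff₀ (by linarith)]
    constructor <;> intro h <;> nlinarith
  · unfold dl
    refine ContinuousOn.div (by fun_prop) (by fun_prop) ?_
    rintro ⟨z, w⟩ ⟨hz, hw⟩
    have h1 := D_sq hz
    have h2 := D_sq hw
    have : 0 < (1 - ‖z‖ ^ 2) * (1 - ‖w‖ ^ 2) := mul_pos (by linarith) (by linarith)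
    exact this.ne'

end Pool.Agent.Helper52.QP
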